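import Mathlib
import Pool.Agent.Q4.Liou
import Pool.Agent.Q4.LiouMat

/-!
# The admissible pairs are the pairs `(m, n)` with `m ≥ 2`

* `m ≥ 2`: take `f A = A₀₀ M` for a fixed matrix `M` whose entries together with `1` are linearly independent
  algebraic numbers. If `f A q` is close to `p` then the ratio of two entries of `M q` is close to a rational
  number, and Liouville's inequality applies.
* `m = 1`: a continuous nowhere constant map takes values that satisfy the second property of Liouville
  matrices on a residual set. If no value is a Liouville matrix then a residual set is covered by countably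
  many closed sets `{A : f A q = p}`, and by Baire's theorem one of them has an interior point.
-/

set_option autoImplicit false

namespace Pool.Agent.Results.MP_6d7a61_nt.AdmissiblePairs

open Finset Matrix Pool.Agent.Q4.LiouMat Pool.Agent.Q4.Liou

/-- a real function on a topological space is nowhere constant if it is constant on no non-empty open set -/
def NowhereConstant {X : Type} [TopologicalSpace X] (g : X → ℝ) : Prop :=
  ∀ U : Set X, IsOpen U → U.Nonempty → ¬ ∃ c : ℝ, ∀ x ∈ U, g x = c

/-- the LIC property: for no set `Ω` with non-empty interior there are fixed integer vectors `p` and `q ≠ 0` with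
`B q = p` for all `B ∈ f(Ω)` -/
def LIC {m n : ℕ} (f : Matrix (Fin m) (Fin n) ℝ → Matrix (Fin m) (Fin n) ℝ) : Prop :=
  ∀ Ω : Set (Matrix (Fin m) (Fin n) ℝ), (interior Ω).Nonempty →
    ¬ ∃ (p : Fin m → ℤ) (q : Fin n → ℤ), q ≠ 0 ∧
      ∀ B ∈ f '' Ω, B *ᵥ (fun j => (q j : ℝ)) = fun i => (p i : ℝ)

/-- strongly nowhere constant: every entry of `A ↦ R₁ f(A) R₂ + T` is nowhere constant, for all invertible
rational `R₁`, `R₂` and all rational `T` -/
def StronglyNowhereConstant {m n : ℕ} (f : Matrix (Fin m) (Fin n) ℝ → Matrix (Fin m) (Fin n) ℝ) : Prop :=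
  ∀ (R₁ : Matrix (Fin m) (Fin m) ℚ) (R₂ : Matrix (Fin n) (Fin n) ℚ) (T : Matrix (Fin m) (Fin n) ℚ),
    IsUnit R₁ → IsUnit R₂ → ∀ (i : Fin m) (j : Fin n),
      NowhereConstant (fun A => ((R₁.map (algebraMap ℚ ℝ)) * f A * (R₂.map (algebraMap ℚ ℝ)) +
        T.map (algebraMap ℚ ℝ)) i j)

/-- `(m, n)` is admissible: some continuous, strongly nowhere constant `f` with the LIC property takes no value
that is a Liouville matrix -/
def Admissible (m n : ℕ) : Prop :=
  ∃ f : Matrix (Fin m) (Fin n) ℝ → Matrix (Fin m) (Fin n) ℝ,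
    Continuous f ∧ StronglyNowhereConstant f ∧ LIC f ∧ ∀ A, ¬ IsLiouvilleMatrix (f A)

/-! ### The case `m ≥ 2` -/

/-- the place of the entry `(i, j)` in the list of numbers -/
def idx {m n : ℕ} (i : Fin m) (j : Fin n) : Fin (m * n + 1) := Fin.succ (finProdFinEquiv (i, j))

lemma idx_ne_zero {m n : ℕ} (i : Fin m) (j : Fin n) : idx i j ≠ 0 := Fin.succ_ne_zero _

lemma sum_split {m n : ℕ} (f : Fin (m * n + 1) → ℝ) :
    ∑ k, f k = f 0 + ∑ i : Fin m, ∑ j : Fin n, f (idx i j) := by
  rw [Fin.sum_univ_succ]
  congr 1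
  rw [← (finProdFinEquiv (m := m) (n := n)).sum_comp (fun k => f k.succ), Fintype.sum_prod_type]
  rfl

/-- a matrix with a measure of linear independence of its entries -/
lemma exists_matrix (m n : ℕ) : ∃ (M : Matrix (Fin m) (Fin n) ℝ) (c : ℝ) (E : ℕ), 0 < c ∧
    ∀ b : Matrix (Fin m) (Fin n) ℤ, b ≠ 0 → ∀ H : ℝ, 1 ≤ H → (∀ i j, |(b i j : ℝ)| ≤ H) →
      c ≤ H ^ E * |∑ i, ∑ j, (b i j : ℝ) * M i j| := by
  obtain ⟨Y, c, hY0, hc, hY⟩ := exists_measure (m * n)
  refine ⟨fun i j => Y (idx i j), c, m * n, hc, ?_⟩
  intro b hb H hH hbH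
  set a : Fin (m * n + 1) → ℤ := Fin.cons 0 (fun k => b (finProdFinEquiv.symm k).1 (finProdFinEquiv.symm k).2)
    with ha
  have ha0 : a 0 = 0 := rfl
  have ha1 : ∀ i j, a (idx i j) = b i j := by
    intro i j
    have : a (idx i j) = b (finProdFinEquiv.symm (finProdFinEquiv (i, j))).1
      (finProdFinEquiv.symm (finProdFinEquiv (i, j))).2 := rfl
    rw [this, Equiv.symm_apply_apply]
  have hane : a ≠ 0 := by
    intro h0
    apply hb
    ext i j
    have := congrFun h0 (idx i j)
    rwa [ha1] at this
  have h1 := hY a hane H hH (by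
    intro k
    refine Fin.cases ?_ (fun k' => ?_) k
    · rw [ha0]; simp; linarith
    · exact hbH _ _)
  rw [sum_split, ha0] at h1
  simpa [ha1] using h1

lemma admissible_of_two_le (m n : ℕ) (hm : 2 ≤ m) (hn : 1 ≤ n) : Admissible m n := by
  obtain ⟨M, c, E, hc, hM⟩ := exists_matrix m n
  set i0 : Fin m := ⟨0, by omega⟩ with hi0
  set i1 : Fin m := ⟨1, by omega⟩ with hi1
  have hi01 : i0 ≠ i1 := by simp [hi0, hi1]
  set j0 : Fin n := ⟨0, by omega⟩ with hj0
  -- the entries satisfy no rational relation
  have hindep : ∀ b : Matrix (Fin m) (Fin n) ℚ, ∑ i, ∑ j, (b i j : ℝ) * M i j = 0 → b = 0 := by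
    intro b hb
    -- clear denominators
    obtain ⟨D, hD⟩ := IsLocalization.exist_integer_multiples_of_finset (nonZeroDivisors ℤ)
      (Finset.univ.image (fun p : Fin m × Fin n => b p.1 p.2))
    have hD0 : ((D : ℤ) : ℚ) ≠ 0 := by
      have := nonZeroDivisors.coe_ne_zero D
      exact_mod_cast this
    choose! z hz using hD
    have hz' : ∀ i j, ((z (b i j) : ℤ) : ℚ) = (D : ℤ) * b i j := by
      intro i j
      have := hz (b i j) (Finset.mem_image.2 ⟨(i, j), Finset.mem_univ _, rfl⟩)
      simpa [Algebra.smul_def] using this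
    by_contra hne
    have hbz : (fun i j => z (b i j) : Matrix (Fin m) (Fin n) ℤ) ≠ 0 := by
      intro h0
      apply hne
      ext i j
      have h1 : z (b i j) = 0 := congrFun (congrFun h0 i) j
      have h2 := hz' i j
      rw [h1] at h2
      simp only [Int.cast_zero] at h2
      rcases mul_eq_zero.1 h2.symm with h3 | h3
      · exact absurd h3 hD0
      · exact h3
    set H : ℝ := 1 + ∑ i : Fin m, ∑ j : Fin n, |(z (b i j) : ℝ)| with hH
    have hHb : ∀ i j, |(z (b i j) : ℝ)| ≤ H := by
      intro i j
      have h1 : |(z (b i j) : ℝ)| ≤ ∑ j : Fin n, |(z (b i j) : ℝ)| :=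
        Finset.single_le_sum (f := fun j : Fin n => |(z (b i j) : ℝ)|) (fun _ _ => abs_nonneg _)
          (Finset.mem_univ j)
      have h2 : ∑ j : Fin n, |(z (b i j) : ℝ)| ≤ ∑ i : Fin m, ∑ j : Fin n, |(z (b i j) : ℝ)| :=
        Finset.single_le_sum (f := fun i : Fin m => ∑ j : Fin n, |(z (b i j) : ℝ)|)
          (fun _ _ => Finset.sum_nonneg fun _ _ => abs_nonneg _) (Finset.mem_univ i)
      linarith
    have hH1 : 1 ≤ H := by
      have : 0 ≤ ∑ i : Fin m, ∑ j : Fin n, |(z (b i j) : ℝ)| :=
        Finset.sum_nonneg fun _ _ => Finset.sum_nonneg fun _ _ => abs_nonneg _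
      linarith
    have h1 := hM _ hbz H hH1 hHb
    have h2 : ∑ i, ∑ j, ((z (b i j) : ℤ) : ℝ) * M i j = 0 := by
      have e : ∀ i j, ((z (b i j) : ℤ) : ℝ) = ((D : ℤ) : ℝ) * (b i j : ℝ) := by
        intro i j
        have := hz' i j
        exact_mod_cast congrArg (fun x : ℚ => (x : ℝ)) this
      simp only [e, mul_assoc, ← Finset.mul_sum]
      rw [hb, mul_zero]
    rw [h2] at h1
    simp at h1
    linarith
  refine ⟨fun A => A i0 j0 • M, ?_, ?_, ?_, ?_⟩
  · exact (continuous_id.matrix_elem i0 j0).smul continuous_const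
  · -- strongly nowhere constant
    intro R₁ R₂ T hR₁ hR₂ i j U hU hUne
    rintro ⟨c₀, hc₀⟩
    obtain ⟨A, hA⟩ := hUne
    set κ : ℝ := ((R₁.map (algebraMap ℚ ℝ)) * M * (R₂.map (algebraMap ℚ ℝ))) i j with hκ
    have hval : ∀ B : Matrix (Fin m) (Fin n) ℝ, ((R₁.map (algebraMap ℚ ℝ)) * (B i0 j0 • M) *
        (R₂.map (algebraMap ℚ ℝ)) + T.map (algebraMap ℚ ℝ)) i j =
        B i0 j0 * κ + (T i j : ℝ) := by
      intro B
      rw [Matrix.add_apply, Matrix.mul_smul, Matrix.smul_mul, Matrix.smul_apply, smul_eq_mul, hκ]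
      rfl
    have hκ0 : κ ≠ 0 := by
      intro h0
      set b : Matrix (Fin m) (Fin n) ℚ := fun k l => R₁ i k * R₂ l j with hb
      have h1 : ∑ k, ∑ l, (b k l : ℝ) * M k l = 0 := by
        rw [← h0, hκ, Matrix.mul_apply]
        simp only [Matrix.mul_apply, Finset.sum_mul]
        rw [Finset.sum_comm]
        apply Finset.sum_congr rfl
        intro l _
        apply Finset.sum_congr rfl
        intro k _
        rw [hb]
        simp only [Matrix.map_apply, eq_ratCast]
        push_cast
        ring
      have h2 := hindep b h1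
      -- an invertible matrix has no zero row or column
      have hrow : ∃ k, R₁ i k ≠ 0 := by
        by_contra hcon
        push Not at hcon
        have hdet : R₁.det = 0 := Matrix.det_eq_zero_of_row_eq_zero i hcon
        have := (Matrix.isUnit_iff_isUnit_det _).1 hR₁
        rw [hdet] at this
        exact not_isUnit_zero this
      have hcol : ∃ l, R₂ l j ≠ 0 := by
        by_contra hcon
        push Not at hcon
        have hdet : R₂.det = 0 := Matrix.det_eq_zero_of_column_eq_zero j hcon
        have := (Matrix.isUnit_iff_isUnit_det _).1 hR₂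
        rw [hdet] at this
        exact not_isUnit_zero this
      obtain ⟨k, hk⟩ := hrow
      obtain ⟨l, hl⟩ := hcol
      have h3 := congrFun (congrFun h2 k) l
      rw [hb] at h3
      simp only [Matrix.zero_apply] at h3
      exact (mul_ne_zero hk hl) h3
    -- move inside the open set
    have hcont : Continuous fun s : ℝ => A + s • (Matrix.single i0 j0 (1 : ℝ)) :=
      continuous_const.add (continuous_id.smul continuous_const)
    have hopen : IsOpen ((fun s : ℝ => A + s • (Matrix.single i0 j0 (1 : ℝ))) ⁻¹' U) := hU.preimage hcont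
    have hmem : (0 : ℝ) ∈ ((fun s : ℝ => A + s • (Matrix.single i0 j0 (1 : ℝ))) ⁻¹' U) := by
      simpa using hA
    obtain ⟨ε, hε, hball⟩ := Metric.isOpen_iff.1 hopen 0 hmem
    have hs : (ε / 2) ∈ Metric.ball (0 : ℝ) ε := by
      rw [Metric.mem_ball, Real.dist_eq, sub_zero, abs_of_pos (by linarith)]
      linarith
    have h1 := hc₀ _ hA
    have h2 := hc₀ _ (hball hs)
    simp only at h1 h2
    rw [hval] at h1 h2
    have h3 : (A + (ε / 2) • (Matrix.single i0 j0 (1 : ℝ))) i0 j0 = A i0 j0 + ε / 2 := by
      simp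
    rw [h3] at h2
    have h4 : ε / 2 * κ = 0 := by linarith
    rcases mul_eq_zero.1 h4 with h5 | h5
    · linarith
    · exact hκ0 h5
  · -- LIC
    rintro Ω ⟨A, hA⟩ ⟨p, q, hq, hpq⟩
    have hU : IsOpen (interior Ω) := isOpen_interior
    have hcont : Continuous fun s : ℝ => A + s • (Matrix.single i0 j0 (1 : ℝ)) :=
      continuous_const.add (continuous_id.smul continuous_const)
    have hopen := hU.preimage hcont
    have hmem : (0 : ℝ) ∈ ((fun s : ℝ => A + s • (Matrix.single i0 j0 (1 : ℝ))) ⁻¹' (interior Ω)) := by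
      simpa using hA
    obtain ⟨ε, hε, hball⟩ := Metric.isOpen_iff.1 hopen 0 hmem
    have hs : (ε / 2) ∈ Metric.ball (0 : ℝ) ε := by
      rw [Metric.mem_ball, Real.dist_eq, sub_zero, abs_of_pos (by linarith)]
      linarith
    have h1 := hpq _ ⟨A, interior_subset hA, rfl⟩
    have h2 := hpq _ ⟨_, interior_subset (hball hs), rfl⟩
    simp only at h1 h2
    have h3 : (A + (ε / 2) • (Matrix.single i0 j0 (1 : ℝ))) i0 j0 = A i0 j0 + ε / 2 := by
      simp
    rw [h3] at h2
    rw [Matrix.smul_mulVec] at h1 h2
    have h4 := congrFun h1 i0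
    have h5 := congrFun h2 i0
    simp only [Pi.smul_apply, smul_eq_mul] at h4 h5
    have h6 : (M *ᵥ fun j => (q j : ℝ)) i0 = 0 := by
      have : ε / 2 * (M *ᵥ fun j => (q j : ℝ)) i0 = 0 := by linarith
      rcases mul_eq_zero.1 this with h7 | h7
      · linarith
      · exact h7
    -- a linear relation between the entries of the first row
    have h7 := hindep (fun i j => if i = i0 then (q j : ℚ) else 0) (by
      rw [Finset.sum_eq_single i0]
      · rw [← h6]
        simp only [if_true, Matrix.mulVec, dotProduct]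
        apply Finset.sum_congr rfl
        intro j _
        push_cast
        ring
      · intro i _ hi
        simp [hi]
      · simp)
    apply hq
    funext j
    have := congrFun (congrFun h7 i0) j
    simpa using this
  · -- no Liouville matrices
    intro A
    set φ : ℝ := A i0 j0 with hφ
    by_cases hφ0 : φ = 0
    · have hA0 : A i0 j0 = 0 := hφ0
      rintro ⟨h1, -⟩
      apply h1 (fun _ => 1) 0 (Or.inl (fun h => one_ne_zero (congrFun h j0)))
      simp only [hA0, zero_smul, Matrix.zero_mulVec]
      funext i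
      simp
    · have hφp : 0 < |φ| := abs_pos.2 hφ0
      -- a bound for the rows
      set S : ℝ := 1 + |φ| + |φ| * ∑ i : Fin m, ∑ j : Fin n, |M i j| with hS
      have hsum0 : 0 ≤ ∑ i : Fin m, ∑ j : Fin n, |M i j| :=
        Finset.sum_nonneg fun _ _ => Finset.sum_nonneg fun _ _ => abs_nonneg _
      have hS1 : 1 ≤ S := by
        have : 0 ≤ |φ| * ∑ i : Fin m, ∑ j : Fin n, |M i j| := by positivity
        rw [hS]; linarith
      set c' : ℝ := min (|φ| * c / (2 * (2 * S) ^ (E + 1))) (1 / 2) with hc'
      have hc'0 : 0 < c' := by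
        rw [hc']
        apply lt_min
        · positivity
        · norm_num
      apply not_liouville_of_bound _ c' hc'0 (2 * E + 1)
      intro x y hy
      set Q : ℝ := ‖y‖ with hQ
      have hQ1 : 1 ≤ Q := one_le_norm hy
      have hyQ : ∀ l, |(y l : ℝ)| ≤ Q := by
        intro l
        have := norm_le_pi_norm y l
        rwa [Int.norm_eq_abs] at this
      set r : Fin m → ℝ := (φ • M) *ᵥ (fun j => (y j : ℝ)) - (fun i => (x i : ℝ)) with hr
      set R : ℝ := ‖r‖ with hR
      have hR0 : 0 ≤ R := norm_nonneg _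
      have hrR : ∀ i, |r i| ≤ R := by
        intro i
        have := norm_le_pi_norm r i
        rwa [Real.norm_eq_abs] at this
      have hri : ∀ i, r i = φ * ∑ l, M i l * y l - x i := by
        intro i
        rw [hr]
        simp only [Pi.sub_apply, Matrix.smul_mulVec, Pi.smul_apply, smul_eq_mul]
        rfl
      by_cases hRbig : 1 ≤ 2 * R
      · have h1 : c' ≤ 1 / 2 := min_le_right _ _
        have h2 : (1 : ℝ) ≤ Q ^ (2 * E + 1) := one_le_pow₀ hQ1
        nlinarith
      push Not at hRbig
      have hxb : ∀ i, |(x i : ℝ)| ≤ S * Q := by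
        intro i
        have e : (x i : ℝ) = φ * ∑ l, M i l * y l - r i := by rw [hri]; ring
        rw [e]
        have h1 : |∑ l, M i l * (y l : ℝ)| ≤ (∑ l, |M i l|) * Q := by
          refine (Finset.abs_sum_le_sum_abs _ _).trans ?_
          rw [Finset.sum_mul]
          apply Finset.sum_le_sum
          intro l _
          rw [abs_mul]
          exact mul_le_mul_of_nonneg_left (hyQ l) (abs_nonneg _)
        have h2 : ∑ l, |M i l| ≤ ∑ i : Fin m, ∑ j : Fin n, |M i j| :=
          Finset.single_le_sum (f := fun i : Fin m => ∑ j : Fin n, |M i j|)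
            (fun _ _ => Finset.sum_nonneg fun _ _ => abs_nonneg _) (Finset.mem_univ i)
        refine (abs_sub _ _).trans ?_
        rw [abs_mul]
        have h3 := hrR i
        have h4 : |φ| * |∑ l, M i l * (y l : ℝ)| ≤ |φ| * ((∑ i : Fin m, ∑ j : Fin n, |M i j|) * Q) := by
          apply mul_le_mul_of_nonneg_left _ hφp.le
          exact h1.trans (mul_le_mul_of_nonneg_right h2 (by linarith))
        rw [hS]
        nlinarith [mul_nonneg hφp.le (by linarith : (0 : ℝ) ≤ Q)]
      -- the coefficients: either `x₁ y` and `- x₀ y` in the first two rows, or `y` in the first row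
      have key : ∀ (b : Matrix (Fin m) (Fin n) ℤ), b ≠ 0 → (∀ i j, |(b i j : ℝ)| ≤ 2 * S * Q ^ 2) →
          |φ| * |∑ i, ∑ j, (b i j : ℝ) * M i j| ≤ 2 * (2 * S) * Q * R →
          c' ≤ Q ^ (2 * E + 1) * R := by
        intro b hb hbH hbv
        have hH1 : (1 : ℝ) ≤ 2 * S * Q ^ 2 := by
          have : 1 ≤ Q ^ 2 := by nlinarith
          nlinarith
        have h1 := hM b hb _ hH1 hbH
        have h2 : |φ| * c ≤ (2 * S * Q ^ 2) ^ E * (2 * (2 * S) * Q * R) := by
          calc |φ| * c ≤ |φ| * ((2 * S * Q ^ 2) ^ E * |∑ i, ∑ j, (b i j : ℝ) * M i j|) :=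
                mul_le_mul_of_nonneg_left h1 hφp.le
            _ = (2 * S * Q ^ 2) ^ E * (|φ| * |∑ i, ∑ j, (b i j : ℝ) * M i j|) := by ring
            _ ≤ _ := mul_le_mul_of_nonneg_left hbv (by positivity)
        have h3 : (2 * S * Q ^ 2) ^ E * (2 * (2 * S) * Q * R) =
            2 * (2 * S) ^ (E + 1) * (Q ^ (2 * E + 1) * R) := by
          rw [mul_pow, ← pow_mul, pow_succ, pow_succ]
          ring
        rw [h3] at h2
        have h4 : c' ≤ |φ| * c / (2 * (2 * S) ^ (E + 1)) := min_le_left _ _
        refine h4.trans ?_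
        rw [div_le_iff₀ (by positivity)]
        linarith
      have hSQ : Q ≤ 2 * S * Q ^ 2 := by
        have : Q ≤ Q ^ 2 := by nlinarith
        nlinarith
      obtain ⟨l₀, hl₀⟩ := Function.ne_iff.1 hy
      have hl₀' : y l₀ ≠ 0 := hl₀
      by_cases hx : x i0 = 0
      · apply key (fun i j => if i = i0 then y j else 0)
        · intro h0
          have := congrFun (congrFun h0 i0) l₀
          simp only [if_true, Matrix.zero_apply] at this
          exact hl₀' this
        · intro i j
          split_ifs
          · exact (hyQ j).trans hSQ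
          · simp only [Int.cast_zero, abs_zero]; linarith
        · have e : ∑ i, ∑ j, (((if i = i0 then y j else 0) : ℤ) : ℝ) * M i j = ∑ l, M i0 l * y l := by
            rw [Finset.sum_eq_single i0]
            · simp only [if_true]
              exact Finset.sum_congr rfl fun l _ => mul_comm _ _
            · intro i _ hi
              simp [hi]
            · simp
          rw [e, ← abs_mul]
          have e2 : φ * ∑ l, M i0 l * y l = r i0 := by rw [hri, hx]; simp
          rw [e2]
          refine (hrR i0).trans ?_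
          have hSQ1 : 1 ≤ S * Q := by nlinarith
          nlinarith [mul_nonneg hR0 (by linarith : (0 : ℝ) ≤ S * Q - 1)]
      · apply key (fun i j => (if i = i1 then x i0 * y j else 0) - (if i = i0 then x i1 * y j else 0))
        · intro h0
          have := congrFun (congrFun h0 i1) l₀
          simp only [if_true, if_neg hi01.symm, Matrix.zero_apply, sub_zero] at this
          exact (mul_ne_zero hx hl₀') this
        · intro i j
          have h1 : |(((if i = i1 then x i0 * y j else 0) : ℤ) : ℝ)| ≤ S * Q ^ 2 := by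
            split_ifs
            · push_cast
              rw [abs_mul]
              calc |(x i0 : ℝ)| * |(y j : ℝ)| ≤ S * Q * Q :=
                    mul_le_mul (hxb _) (hyQ _) (abs_nonneg _) (by positivity)
                _ = S * Q ^ 2 := by ring
            · simp; positivity
          have h2 : |(((if i = i0 then x i1 * y j else 0) : ℤ) : ℝ)| ≤ S * Q ^ 2 := by
            split_ifs
            · push_cast
              rw [abs_mul]
              calc |(x i1 : ℝ)| * |(y j : ℝ)| ≤ S * Q * Q :=
                    mul_le_mul (hxb _) (hyQ _) (abs_nonneg _) (by positivity)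
                _ = S * Q ^ 2 := by ring
            · simp; positivity
          rw [Int.cast_sub]
          refine (abs_sub _ _).trans ?_
          linarith
        · have e : ∑ i, ∑ j, (((if i = i1 then x i0 * y j else 0) - (if i = i0 then x i1 * y j else 0) : ℤ) : ℝ) *
              M i j = x i0 * ∑ l, M i1 l * y l - x i1 * ∑ l, M i0 l * y l := by
            have e2 : ∀ i, ∑ j, (((if i = i1 then x i0 * y j else 0) -
                (if i = i0 then x i1 * y j else 0) : ℤ) : ℝ) * M i j =
                (if i = i1 then x i0 * ∑ l, M i1 l * y l else 0) -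
                  (if i = i0 then x i1 * ∑ l, M i0 l * y l else 0) := by
              intro i
              by_cases h1 : i = i1
              · have h2 : i ≠ i0 := by rw [h1]; exact hi01.symm
                simp only [if_pos h1, if_neg h2, sub_zero, Finset.mul_sum]
                rw [h1]
                apply Finset.sum_congr rfl
                intro l _
                push_cast
                ring
              · by_cases h2 : i = i0
                · simp only [if_neg h1, if_pos h2, zero_sub, Finset.mul_sum]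
                  rw [← Finset.sum_neg_distrib, h2]
                  apply Finset.sum_congr rfl
                  intro l _
                  push_cast
                  ring
                · simp [h1, h2]
            simp only [e2]
            rw [Finset.sum_sub_distrib]
            simp
          rw [e, ← abs_mul]
          have e2 : φ * (x i0 * ∑ l, M i1 l * y l - x i1 * ∑ l, M i0 l * y l) =
              x i0 * r i1 - x i1 * r i0 := by
            rw [hri, hri]; ring
          rw [e2]
          refine (abs_sub _ _).trans ?_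
          rw [abs_mul, abs_mul]
          have h1 : |(x i0 : ℝ)| * |r i1| ≤ S * Q * R := mul_le_mul (hxb _) (hrR _) (abs_nonneg _) (by positivity)
          have h2 : |(x i1 : ℝ)| * |r i0| ≤ S * Q * R := mul_le_mul (hxb _) (hrR _) (abs_nonneg _) (by positivity)
          have : 0 ≤ S * Q * R := by positivity
          linarith

/-! ### The case `m = 1` -/

lemma not_admissible_one (n : ℕ) (hn : 1 ≤ n) : ¬ Admissible 1 n := by
  rintro ⟨f, hf, hsnc, hlic, hnl⟩
  set j0 : Fin n := ⟨0, by omega⟩ with hj0
  haveI : BaireSpace (Matrix (Fin 1) (Fin n) ℝ) := inferInstanceAs (BaireSpace (Fin 1 → Fin n → ℝ))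
  haveI : LocallyConnectedSpace (Matrix (Fin 1) (Fin n) ℝ) :=
    inferInstanceAs (LocallyConnectedSpace (Fin 1 → Fin n → ℝ))
  have hmv : ∀ q : Fin n → ℤ, Continuous fun A => f A *ᵥ (fun j => (q j : ℝ)) := fun q =>
    hf.matrix_mulVec continuous_const
  -- the sets of good approximation
  set W : ℕ → Set (Matrix (Fin 1) (Fin n) ℝ) := fun N => {A | ∃ (x : Fin 1 → ℤ) (y : Fin n → ℤ), 1 < ‖y‖ ∧
    ‖f A *ᵥ (fun j => (y j : ℝ)) - (fun i => (x i : ℝ))‖ < 1 / ‖y‖ ^ N} with hW
  have hWo : ∀ N, IsOpen (W N) := by
    intro N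
    have : W N = ⋃ (x : Fin 1 → ℤ), ⋃ (y : Fin n → ℤ), ⋃ (_ : 1 < ‖y‖),
        {A | ‖f A *ᵥ (fun j => (y j : ℝ)) - (fun i => (x i : ℝ))‖ < 1 / ‖y‖ ^ N} := by
      ext A
      simp [hW]
    rw [this]
    refine isOpen_iUnion fun x => isOpen_iUnion fun y => isOpen_iUnion fun _ => ?_
    exact isOpen_lt (((hmv y).sub continuous_const).norm) continuous_const
  have hWd : ∀ N, Dense (W N) := by
    intro N
    rw [dense_iff_inter_open]
    intro U hU hUne
    obtain ⟨A, hA⟩ := hUne
    -- a connected open neighbourhood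
    set V := connectedComponentIn U A with hV
    have hVo : IsOpen V := hU.connectedComponentIn
    have hVc : IsPreconnected V := isPreconnected_connectedComponentIn
    have hVU : V ⊆ U := connectedComponentIn_subset U A
    have hAV : A ∈ V := mem_connectedComponentIn hA
    set g : Matrix (Fin 1) (Fin n) ℝ → ℝ := fun A => f A 0 j0 with hg
    have hgc : Continuous g := hf.matrix_elem 0 j0
    have hnc := hsnc 1 1 0 isUnit_one isUnit_one 0 j0 V hVo ⟨A, hAV⟩
    obtain ⟨B, hBV, hBne⟩ : ∃ B ∈ V, g B ≠ g A := by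
      by_contra hcon
      push Not at hcon
      apply hnc
      refine ⟨g A, fun B hB => ?_⟩
      rw [← hcon B hB]
      simp [hg]
    have hord : (g '' V).OrdConnected := (hVc.image g hgc.continuousOn).ordConnected
    obtain ⟨s, hs1, hs2⟩ : ∃ s : ℚ, min (g A) (g B) < (s : ℝ) ∧ (s : ℝ) < max (g A) (g B) :=
      exists_rat_btwn (by
        rcases lt_or_gt_of_ne hBne with h | h
        · rw [min_eq_right h.le, max_eq_left h.le]; exact h
        · rw [min_eq_left h.le, max_eq_right h.le]; exact h)
    have hsmem : (s : ℝ) ∈ g '' V := by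
      rcases le_total (g A) (g B) with h | h
      · rw [min_eq_left h] at hs1
        rw [max_eq_right h] at hs2
        exact hord.out ⟨A, hAV, rfl⟩ ⟨B, hBV, rfl⟩ ⟨hs1.le, hs2.le⟩
      · rw [min_eq_right h] at hs1
        rw [max_eq_left h] at hs2
        exact hord.out ⟨B, hBV, rfl⟩ ⟨A, hAV, rfl⟩ ⟨hs1.le, hs2.le⟩
    obtain ⟨C, hCV, hC⟩ := hsmem
    refine ⟨C, hVU hCV, ?_⟩
    -- multiply by twice the denominator
    set q : Fin n → ℤ := Pi.single j0 (2 * (s.den : ℤ)) with hq
    have hval : f C *ᵥ (fun j => (q j : ℝ)) = fun _ => ((2 * s.num : ℤ) : ℝ) := by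
      funext i
      rw [Matrix.mulVec, dotProduct, Finset.sum_eq_single j0]
      · have h1 : f C i j0 = (s : ℝ) := by rw [Subsingleton.elim i 0]; exact hC
        have h2 : ((s : ℝ)) * (s.den : ℝ) = (s.num : ℝ) := by
          have := Rat.mul_den_eq_num s
          exact_mod_cast congrArg (fun x : ℚ => (x : ℝ)) this
        rw [h1, hq]
        simp only [Pi.single_eq_same]
        push_cast
        linear_combination 2 * h2
      · intro j _ hj
        rw [hq]
        simp [Pi.single_eq_of_ne hj]
      · simp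
    refine ⟨fun _ => 2 * s.num, q, ?_, ?_⟩
    · have h1 : ‖q j0‖ ≤ ‖q‖ := norm_le_pi_norm q j0
      have h2 : ‖q j0‖ = 2 * (s.den : ℝ) := by
        rw [hq, Pi.single_eq_same, Int.norm_eq_abs]
        push_cast
        rw [abs_of_pos (by have := s.den_pos; positivity)]
      have h3 : (1 : ℝ) ≤ s.den := by exact_mod_cast s.den_pos
      linarith
    · rw [hval, sub_self, norm_zero]
      have h1 : ‖q j0‖ ≤ ‖q‖ := norm_le_pi_norm q j0
      have h2 : ‖q j0‖ = 2 * (s.den : ℝ) := by
        rw [hq, Pi.single_eq_same, Int.norm_eq_abs]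
        push_cast
        rw [abs_of_pos (by have := s.den_pos; positivity)]
      have h3 : (1 : ℝ) ≤ s.den := by exact_mod_cast s.den_pos
      have : 0 < ‖q‖ := by linarith
      positivity
  -- the closed sets
  set F : (Fin 1 → ℤ) × (Fin n → ℤ) → Set (Matrix (Fin 1) (Fin n) ℝ) := fun pq =>
    {A | f A *ᵥ (fun j => (pq.2 j : ℝ)) = fun i => (pq.1 i : ℝ)} with hF
  have hFc : ∀ pq, IsClosed (F pq) := fun pq => isClosed_eq (hmv pq.2) continuous_const
  -- their complements are dense if `q ≠ 0`
  have hFd : ∀ pq : (Fin 1 → ℤ) × (Fin n → ℤ), pq.2 ≠ 0 → Dense (F pq)ᶜ := by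
    intro pq hq
    rw [← interior_eq_empty_iff_dense_compl]
    by_contra hne
    apply hlic (F pq) (Set.nonempty_iff_ne_empty.2 hne)
    refine ⟨pq.1, pq.2, hq, ?_⟩
    rintro B ⟨A, hA, rfl⟩
    exact hA
  -- Baire's theorem
  have hdense : Dense ((⋂ N, W N) ∩ ⋂ pq : {pq : (Fin 1 → ℤ) × (Fin n → ℤ) // pq.2 ≠ 0}, (F pq)ᶜ) := by
    apply Dense.inter_of_Gδ
    · exact IsGδ.iInter_of_isOpen hWo
    · exact IsGδ.iInter_of_isOpen fun pq => (hFc _).isOpen_compl
    · exact dense_iInter_of_isOpen hWo hWd
    · exact dense_iInter_of_isOpen (fun pq => (hFc _).isOpen_compl) (fun pq => hFd _ pq.2)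
  obtain ⟨A, hA1, hA2⟩ := hdense.nonempty
  apply hnl A
  refine ⟨?_, fun N => Set.mem_iInter.1 hA1 N⟩
  intro y x hyx hEq
  by_cases hy : y = 0
  · have hx : x ≠ 0 := by
      rcases hyx with h | h
      · exact absurd hy h
      · exact h
    apply hx
    funext i
    have h1 := congrFun hEq i
    rw [hy] at h1
    simp only [Pi.zero_apply, Int.cast_zero] at h1
    have h2 : (f A *ᵥ fun _ => (0 : ℝ)) i = 0 := by
      simp [Matrix.mulVec, dotProduct]
    rw [h2] at h1
    exact_mod_cast h1.symm
  · exact Set.mem_iInter.1 hA2 ⟨(x, y), hy⟩ hEq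

/-- A pair `(m, n)` of positive integers is admissible if and only if `m ≥ 2`. -/
theorem result (m n : ℕ) (hm : 1 ≤ m) (hn : 1 ≤ n) : Admissible m n ↔ 2 ≤ m := by
  constructor
  · intro h
    by_contra hcon
    have : m = 1 := by omega
    subst this
    exact not_admissible_one n hn h
  · intro h
    exact admissible_of_two_le m n h hn

end Pool.Agent.Results.MP_6d7a61_nt.AdmissiblePairs
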